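import Pool.Agent.H93.CUBE.LStmts
import Pool.Agent.H70.LIM.Pk

set_option autoImplicit false

namespace Pool.H93.Cube

open Pool.CM

theorem HNF_thm (_h1 : EXOStmt) : HNFStmt := by
  intro X E _ A hA m _ _ G n h
  have : CharZero E := charZero_of_Ax hA
  exact Pool.Agent.H70.LIM.Pk.nilF_of_hasHP hA h

end Pool.H93.Cube
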