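import Pool.Agent.H93.CUBE.LStmts
import Pool.Agent.H70.LIM.Pk

set_option autoImplicit false

namespace Pool.H93.Cube

open Pool.CM

theorem HPP_thm70 : HPPStmt := by
  intro X E _ A hA m _ _ G chi e n h
  refine ⟨Pool.Agent.H70.LIM.Pk.hasHP_of_pkg hA h, ?_⟩
  have e1 : (-(G none).transpose).map (ex E) = -((G none).map (ex E)).transpose := by
    ext1 a b
    simp
  rw [e1]
  exact Pool.Agent.H70.LIM.Pk.hasHP_of_pkg' hA h

end Pool.H93.Cube
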