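import Pool.Agent.H93.CUBE.LStmts
import Pool.Agent.H70.LIM.Glue

set_option autoImplicit false

namespace Pool.H93.Cube

open Pool.CM

theorem RGL_thm : RGLStmt := by
  intro X E _ A hA m _ _ G n hR hchi h
  have : CharZero E := charZero_of_Ax hA
  obtain ⟨c, hc⟩ := Pool.Agent.H70.LIM.Glue.rok' hA hR hchi h (Fintype.card m)
  refine ⟨c, fun C => (hc C).mono fun i hi => ?_⟩
  rw [mul_comm]
  exact hi

end Pool.H93.Cube
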